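import Pool.Agent.HQD.Full

/-!
# Quasi-hyperbolic Henon maps: the interior of `K⁺` is a finite union of basins of sinks

Let `f` be a quasi-hyperbolic generalized Henon map.  Then `f` has finitely many attracting
periodic points, and the interior of `K⁺` is the union of their basins.  This answers Q1 in the
affirmative.  On the way it is proved that `J = ∂K⁺ ∩ ∂K⁻` is the closure of the saddle periodic
points (theorem `Pool.Agent.HQ.full`).

Outline of the proof (modules in `Pool/Agent/HQ`, `Pool/Agent/HQD`, `Pool/Agent/HQL`).

* (HQ) If `J` is contained in the closure of the saddles the theorem holds: the limits of the
  normalised parametrisations form a compact family of entire curves with uniform growth rates,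
  holomorphic discs in `K` through limits of saddle points are constant, periodic components of
  the interior of `K⁺` are basins, components meeting an unstable manifold are periodic and
  finitely many, and every component is mapped to one of these.
* (HQ.Lk) Linking: every neighbourhood of a boundary point of `K⁻` meets the unstable manifolds of
  the orbit of any given saddle.
* (HQD, blocks A - D) A closed class of entire curves in `K⁻`, stable under zooming, whose curves
  have a zero of `G⁺` passing through a set, gives a saddle point in that set (zooming along a
  curve, cones, a fixed point of a zoomed curve).  With crossings of unstable and stable curves,
  the index of tangency and terminal classes of the crossing relation, the frontier zeros of `G⁺`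
  on the unstable manifolds of a terminal class of saddles are limits of saddles.
* (HQD, Lemma P) Over a minimal set in the closure of the saddles the curves of constant order
  give hyperbolic charts; a barrier made of harmonic functions with values on the escaping and the
  non escaping side shows that entire curves in `K⁻` cannot accumulate on the minimal set without
  frontier zeros of `G⁺` nearby.  Hence the previous item holds for all saddles.
* (HQL) Limits of points of unstable manifolds of unbounded height are not limits of saddles;
  hence zeros of `G⁻` on limits of stable manifolds are limits of saddles and `J` is the closure of
  the saddles.
-/

set_option autoImplicit false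

namespace Pool.Agent.Results.MP_7f73f9_an.FiniteBasins

open Pool.Agent.HQ

/-- A quasi-hyperbolic generalized Henon map has finitely many sinks, and the interior of `K⁺` is
the union of their basins. -/
theorem result (L : List (ℂˣ × Polynomial ℂ)) (hL : L ≠ [])
    (hdeg : ∀ q ∈ L, 2 ≤ q.2.natDegree) (hq : QHyp L) :
    (Snk (henon L)).Finite ∧
      interior (Kplus (henon L)) = ⋃ p ∈ Snk (henon L), Basin (henon L) p :=
  ⟨(full ⟨hL, hdeg⟩ hq).1, (full ⟨hL, hdeg⟩ hq).2.1⟩

end Pool.Agent.Results.MP_7f73f9_an.FiniteBasins
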